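import Pool.Agent.H40.ISH.Stmts

/-! Project ISH, module GEO: many disjoint cubes in which one side is thin. -/

namespace Pool.ISH

open MeasureTheory Filter Topology
open scoped Classical Pointwise

theorem geo_cnt_mono {D : Set Site} {x y : Site} {r s : ℕ} (h : Qb x r ⊆ Qb y s) :
    cnt D x r ≤ cnt D y s :=
  Finset.card_le_card (Finset.filter_subset_filter _ h)

theorem geo_Qb_sub {x y : Site} {r s t : ℕ} (h : x ∈ Qb y s) (ht : s + r ≤ t) :
    Qb x r ⊆ Qb y t := by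
  intro z hz
  rw [mem_Qb] at *
  intro i
  have h1 := hz i
  have h2 := h i
  rw [abs_le] at *
  have h3 : (s : ℤ) + r ≤ t := by exact_mod_cast ht
  constructor <;> linarith [h1.1, h1.2, h2.1, h2.2]

theorem geo (hSEL : SELStmt) (hINR : INRStmt) : GEOStmt := by
  intro c hc
  obtain ⟨c1, hc1, hc1c, hc14⟩ : ∃ c1 : ℝ, 0 < c1 ∧ c1 ≤ c ∧ c1 ≤ 1 / 4 :=
    ⟨min c (1 / 4), lt_min hc (by norm_num), min_le_left _ _, min_le_right _ _⟩
  obtain ⟨η, hη, hη1, hη2⟩ : ∃ η : ℝ, 0 < η ∧ 2000 * η ≤ c1 ∧ 4000 * 1152 ^ 3 * η ≤ 1 / 1000 := by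
    refine ⟨min (c1 / 2000) (1 / (1000 * (4000 * 1152 ^ 3))), lt_min (by positivity)
      (by positivity), ?_, ?_⟩
    · have := min_le_left (c1 / 2000) (1 / (1000 * (4000 * 1152 ^ 3)))
      linarith
    · calc (4000 : ℝ) * 1152 ^ 3 * min (c1 / 2000) (1 / (1000 * (4000 * 1152 ^ 3))) ≤
          4000 * 1152 ^ 3 * (1 / (1000 * (4000 * 1152 ^ 3))) :=
            mul_le_mul_of_nonneg_left (min_le_right _ _) (by positivity)
        _ ≤ 1 / 1000 := by norm_num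
  refine ⟨η ^ 3, by positivity, ⌈1 / c1⌉₊, ?_⟩
  intro D hD x₀ hx₀ k R hk hR hcnt
  have hk1 : 1 ≤ 2 ^ k := Nat.one_le_two_pow
  have hk4 : 2 ^ k ≤ (2 ^ k) ^ 4 := Nat.le_self_pow (by norm_num) _
  have hR100 : 100 * 2 ^ k ≤ R := le_trans (Nat.mul_le_mul_left _ hk4) hR
  have hRpos : 100 ≤ R := by omega
  have hRr : (0 : ℝ) < R := by exact_mod_cast (by omega : 0 < R)
  -- the exponent j₁
  have hex1 : ∃ j, k ≤ j ∧ 1000 * η * R ≤ (2 : ℝ) ^ j := by
    obtain ⟨n, hn⟩ := pow_unbounded_of_one_lt (1000 * η * R) (by norm_num : (1 : ℝ) < 2)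
    exact ⟨max k n, le_max_left _ _, le_trans hn.le
      (pow_le_pow_right₀ (by norm_num) (le_max_right _ _))⟩
  obtain ⟨j₁, ⟨hj1k, hj1⟩, hj1min⟩ : ∃ j₁, (k ≤ j₁ ∧ 1000 * η * R ≤ (2 : ℝ) ^ j₁) ∧
      ∀ j < j₁, ¬ (k ≤ j ∧ 1000 * η * R ≤ (2 : ℝ) ^ j) :=
    ⟨Nat.find hex1, Nat.find_spec hex1, fun j hj => Nat.find_min hex1 hj⟩
  have hj1lt : k < j₁ → (2 : ℝ) ^ j₁ < 2000 * η * R := by
    intro h
    have h1 := hj1min (j₁ - 1) (by omega)
    push Not at h1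
    have h2 := h1 (by omega)
    have h3 : (2 : ℝ) ^ j₁ = 2 * 2 ^ (j₁ - 1) := by
      rw [← pow_succ']
      congr 1
      omega
    rw [h3]
    linarith
  have h2k : ((2 ^ k : ℕ) : ℝ) ≤ c1 * R := by
    have h1 : 1 / c1 ≤ ((2 ^ k : ℕ) : ℝ) := le_trans (Nat.le_ceil _) (by exact_mod_cast hk)
    have h2 : (100 * ((2 ^ k : ℕ) : ℝ) ^ 4) ≤ R := by exact_mod_cast hR
    have h3 : (1 : ℝ) ≤ ((2 ^ k : ℕ) : ℝ) := by exact_mod_cast hk1
    have h4 : 1 ≤ c1 * ((2 ^ k : ℕ) : ℝ) := by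
      rw [div_le_iff₀ hc1] at h1
      linarith
    obtain ⟨q, hq⟩ : ∃ q : ℝ, q = ((2 ^ k : ℕ) : ℝ) := ⟨_, rfl⟩
    rw [← hq] at h2 h3 h4 ⊢
    calc q ≤ (c1 * q) * q := by nlinarith
      _ ≤ c1 * (100 * q ^ 4) := by
        have h5 : q ^ 2 ≤ q ^ 4 := pow_le_pow_right₀ h3 (by norm_num)
        have h6 : 0 ≤ q ^ 4 := by positivity
        nlinarith
      _ ≤ c1 * R := mul_le_mul_of_nonneg_left h2 hc1.le
  have hj1c : (2 : ℝ) ^ j₁ ≤ c1 * R := by
    rcases Nat.eq_or_lt_of_le hj1k with h | h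
    · rw [← h]
      exact_mod_cast h2k
    · have h1 := hj1lt h
      have h2 : 2000 * η * R ≤ c1 * R := mul_le_mul_of_nonneg_right hη1 hRr.le
      linarith
  have hj1R : 2 ^ j₁ ≤ R / 2 := by
    have h1 : (2 : ℝ) ^ j₁ ≤ 1 / 4 * R := le_trans hj1c (mul_le_mul_of_nonneg_right hc14 hRr.le)
    have h2 : ((4 * 2 ^ j₁ : ℕ) : ℝ) ≤ (R : ℝ) := by
      push_cast
      linarith
    have h3 : 4 * 2 ^ j₁ ≤ R := by exact_mod_cast h2
    omega
  -- boundary sites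
  obtain ⟨Y, hY⟩ : ∃ Y : Finset Site, Y = (Qb x₀ (R / 2)).filter (fun y => Inc D y) := ⟨_, rfl⟩
  have hgood1 : ∀ y ∈ Y, 10 ^ 9 * cnt D y (2 ^ j₁) ≤ (2 ^ j₁) ^ 3 := by
    intro y hy
    rw [hY, Finset.mem_filter] at hy
    have h1 : cnt D y (2 ^ j₁) ≤ cnt D x₀ R :=
      geo_cnt_mono (geo_Qb_sub hy.1 (by omega))
    have h2 : ((10 ^ 9 * cnt D y (2 ^ j₁) : ℕ) : ℝ) ≤ (((2 ^ j₁) ^ 3 : ℕ) : ℝ) := by
      push_cast
      have h3 : (cnt D y (2 ^ j₁) : ℝ) ≤ η ^ 3 * (R : ℝ) ^ 3 :=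
        le_trans (by exact_mod_cast h1) hcnt
      have h4 : (1000 * η * R) ^ 3 ≤ ((2 : ℝ) ^ j₁) ^ 3 :=
        pow_le_pow_left₀ (by positivity) hj1 3
      nlinarith
    exact_mod_cast h2
  have hexJ : ∀ y ∈ Y, ∃ j, k ≤ j ∧ 10 ^ 9 * cnt D y (2 ^ j) ≤ (2 ^ j) ^ 3 := fun y hy =>
    ⟨j₁, hj1k, hgood1 y hy⟩
  obtain ⟨J, hJ⟩ : ∃ J : Site → ℕ, ∀ y ∈ Y, (k ≤ J y ∧ 10 ^ 9 * cnt D y (2 ^ J y) ≤ (2 ^ J y) ^ 3) ∧
      ∀ j < J y, ¬ (k ≤ j ∧ 10 ^ 9 * cnt D y (2 ^ j) ≤ (2 ^ j) ^ 3) := by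
    refine ⟨fun y => if h : ∃ j, k ≤ j ∧ 10 ^ 9 * cnt D y (2 ^ j) ≤ (2 ^ j) ^ 3 then Nat.find h
      else 0, fun y hy => ?_⟩
    simp only [dif_pos (hexJ y hy)]
    exact ⟨Nat.find_spec (hexJ y hy), fun j hj => Nat.find_min (hexJ y hy) hj⟩
  have hJle : ∀ y ∈ Y, J y ≤ j₁ := by
    intro y hy
    by_contra h
    exact (hJ y hy).2 j₁ (by omega) ⟨hj1k, hgood1 y hy⟩
  obtain ⟨X0, hX0, hdisj, hcov⟩ := hSEL Y (fun y => 2 ^ J y)
  -- covering of the distances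
  have hcover : (Finset.range (R / 2)) ⊆ (X0 ×ˢ (Finset.univ : Finset (Fin 3))).biUnion
      (fun q => Finset.Icc ((q.1 q.2 - x₀ q.2).natAbs - (2 * 2 ^ J q.1 + 1))
        ((q.1 q.2 - x₀ q.2).natAbs + (2 * 2 ^ J q.1 + 1))) := by
    intro k' hk'
    rw [Finset.mem_range] at hk'
    obtain ⟨y, hy, hy1, i, hi⟩ := hINR D hD x₀ hx₀ k'
    have hyY : y ∈ Y := by
      rw [hY, Finset.mem_filter, mem_Qb]
      refine ⟨fun i => le_trans (hy1 i) ?_, hy⟩
      have : k' + 1 ≤ R / 2 := hk'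
      exact_mod_cast this
    obtain ⟨x, hx, -, hxy⟩ := hcov y hyY
    rw [Finset.mem_biUnion]
    refine ⟨(x, i), Finset.mem_product.2 ⟨hx, Finset.mem_univ _⟩, ?_⟩
    rw [Finset.mem_Icc]
    have h1 := hxy i
    have h2 := hy1 i
    obtain ⟨ρ, hρ⟩ : ∃ ρ : ℕ, ρ = 2 ^ J x := ⟨_, rfl⟩
    simp only at h1 ⊢
    rw [← hρ] at h1 ⊢
    rw [abs_le] at h1 h2
    rw [le_abs] at hi
    rcases hi with hi | hi <;> constructor <;> omega
  have hcard : R / 2 ≤ 21 * ∑ x ∈ X0, 2 ^ J x := by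
    calc R / 2 = (Finset.range (R / 2)).card := (Finset.card_range _).symm
      _ ≤ _ := Finset.card_le_card hcover
      _ ≤ ∑ q ∈ X0 ×ˢ (Finset.univ : Finset (Fin 3)), (Finset.Icc
          ((q.1 q.2 - x₀ q.2).natAbs - (2 * 2 ^ J q.1 + 1))
          ((q.1 q.2 - x₀ q.2).natAbs + (2 * 2 ^ J q.1 + 1))).card := Finset.card_biUnion_le
      _ ≤ ∑ q ∈ X0 ×ˢ (Finset.univ : Finset (Fin 3)), 7 * 2 ^ J q.1 := by
        refine Finset.sum_le_sum fun q _ => ?_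
        rw [Nat.card_Icc]
        have : 1 ≤ 2 ^ J q.1 := Nat.one_le_two_pow
        omega
      _ = 21 * ∑ x ∈ X0, 2 ^ J x := by
        rw [Finset.sum_product, Finset.mul_sum]
        refine Finset.sum_congr rfl fun x _ => ?_
        simp only [Finset.sum_const, Finset.card_univ, Fintype.card_fin, smul_eq_mul]
        ring
  have hXY : ∀ x ∈ X0, x ∈ Y := fun x hx => hX0 hx
  -- the common conclusion
  have hfin : ∀ j (X : Finset Site), X ⊆ X0 → (∀ x ∈ X, J x = j) → j ≤ j₁ →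
      ((2 ^ j : ℕ) : ℝ) ≤ c * R ∧
      (∀ x ∈ X, Inc D x ∧ Qb x (2 ^ j) ⊆ Qb x₀ R ∧
        10 ^ 9 * cnt D x (2 ^ j) ≤ (2 ^ j) ^ 3) ∧
      (∀ x ∈ X, ∀ y ∈ X, x ≠ y → Disjoint (Qb x (2 ^ j)) (Qb y (2 ^ j))) := by
    intro j X hX hXj hj
    have h2j : 2 ^ j ≤ 2 ^ j₁ := Nat.pow_le_pow_right (by norm_num) hj
    refine ⟨?_, fun x hx => ?_, fun x hx y hy hxy => ?_⟩
    · have h1 : ((2 ^ j : ℕ) : ℝ) ≤ (2 : ℝ) ^ j₁ := by exact_mod_cast h2j
      have h2 : c1 * R ≤ c * R := mul_le_mul_of_nonneg_right hc1c hRr.le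
      linarith
    · have hxY := hXY x (hX hx)
      have h1 := (hJ x hxY).1.2
      rw [hXj x hx] at h1
      have h2 := hxY
      rw [hY, Finset.mem_filter] at h2
      exact ⟨h2.2, geo_Qb_sub h2.1 (by omega), h1⟩
    · have h1 := hdisj x (hX hx) y (hX hy) hxy
      rw [hXj x hx, hXj y hy] at h1
      exact h1
  by_cases hA : (2 ^ k) ^ 3 ≤ (X0.filter (fun x => J x = k)).card
  · obtain ⟨X, hX, hXc⟩ := Finset.exists_subset_card_eq hA
    have hXj : ∀ x ∈ X, J x = k := fun x hx => (Finset.mem_filter.1 (hX hx)).2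
    obtain ⟨h1, h2, h3⟩ := hfin k X (fun x hx => (Finset.mem_filter.1 (hX hx)).1) hXj hj1k
    exact ⟨2 ^ k, k, X, hXc, h1, h2, h3, Or.inl ⟨rfl, rfl⟩⟩
  by_cases hB : ∃ j, k < j ∧ 1152 ^ 3 ≤ (X0.filter (fun x => J x = j)).card
  · obtain ⟨j, hkj, hj⟩ := hB
    obtain ⟨X, hX, hXc⟩ := Finset.exists_subset_card_eq hj
    have hXj : ∀ x ∈ X, J x = j := fun x hx => (Finset.mem_filter.1 (hX hx)).2
    have hXX : X ⊆ X0 := fun x hx => (Finset.mem_filter.1 (hX hx)).1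
    have hjle : j ≤ j₁ := by
      have hne : X.Nonempty := by
        rw [← Finset.card_pos, hXc]
        norm_num
      obtain ⟨x, hx⟩ := hne
      rw [← hXj x hx]
      exact hJle x (hXY x (hXX hx))
    obtain ⟨h1, h2, h3⟩ := hfin j X hXX hXj hjle
    refine ⟨1152, j, X, hXc, h1, h2, h3, Or.inr ⟨rfl, hkj, fun x hx => ?_⟩⟩
    have h4 := (hJ x (hXY x (hXX hx))).2 (j - 1) (by rw [hXj x hx]; omega)
    have h5 : 2 ^ j / 2 = 2 ^ (j - 1) := by
      have : 2 ^ j = 2 * 2 ^ (j - 1) := by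
        rw [← pow_succ']
        congr 1
        omega
      omega
    have h6 : (2 ^ j) ^ 3 = 8 * (2 ^ (j - 1)) ^ 3 := by
      have : 2 ^ j = 2 * 2 ^ (j - 1) := by
        rw [← pow_succ']
        congr 1
        omega
      rw [this]
      ring
    rw [h5, h6]
    have h7 : ¬ 10 ^ 9 * cnt D x (2 ^ (j - 1)) ≤ (2 ^ (j - 1)) ^ 3 := fun h => h4 ⟨by omega, h⟩
    omega
  · -- contradiction
    exfalso
    push Not at hA hB
    have hsplit : ∑ x ∈ X0, 2 ^ J x = ∑ x ∈ X0.filter (fun x => J x = k), 2 ^ J x +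
        ∑ x ∈ X0.filter (fun x => ¬ J x = k), 2 ^ J x :=
      (Finset.sum_filter_add_sum_filter_not _ _ _).symm
    have hfirst : ∑ x ∈ X0.filter (fun x => J x = k), 2 ^ J x ≤ (2 ^ k) ^ 4 := by
      have h1 : ∑ x ∈ X0.filter (fun x => J x = k), 2 ^ J x =
          (X0.filter (fun x => J x = k)).card * 2 ^ k := by
        rw [← smul_eq_mul, ← Finset.sum_const]
        refine Finset.sum_congr rfl fun x hx => ?_
        rw [(Finset.mem_filter.1 hx).2]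
      rw [h1]
      calc _ ≤ (2 ^ k) ^ 3 * 2 ^ k := Nat.mul_le_mul_right _ hA.le
        _ = (2 ^ k) ^ 4 := by ring
    have hsecond : ((∑ x ∈ X0.filter (fun x => ¬ J x = k), 2 ^ J x : ℕ) : ℝ) ≤ 1 / 1000 * R := by
      rcases Nat.eq_or_lt_of_le hj1k with h | h
      · have h1 : X0.filter (fun x => ¬ J x = k) = ∅ := by
          refine Finset.filter_eq_empty_iff.2 fun x hx => ?_
          have h2 := (hJ x (hXY x hx)).1.1
          have h3 := hJle x (hXY x hx)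
          omega
        rw [h1]
        simp
      · have h1 : ∑ x ∈ X0.filter (fun x => ¬ J x = k), 2 ^ J x =
            ∑ j ∈ Finset.range (j₁ + 1), ∑ x ∈ (X0.filter (fun x => ¬ J x = k)).filter
              (fun x => J x = j), 2 ^ J x := by
          rw [Finset.sum_fiberwise_of_maps_to]
          intro x hx
          rw [Finset.mem_range]
          have := hJle x (hXY x (Finset.mem_filter.1 hx).1)
          omega
        have h2 : ∀ j ∈ Finset.range (j₁ + 1), ∑ x ∈ (X0.filter (fun x => ¬ J x = k)).filter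
              (fun x => J x = j), 2 ^ J x ≤ 1152 ^ 3 * 2 ^ j := by
          intro j _
          have h3 : ∑ x ∈ (X0.filter (fun x => ¬ J x = k)).filter (fun x => J x = j), 2 ^ J x =
              ((X0.filter (fun x => ¬ J x = k)).filter (fun x => J x = j)).card * 2 ^ j := by
            rw [← smul_eq_mul, ← Finset.sum_const]
            refine Finset.sum_congr rfl fun x hx => ?_
            rw [(Finset.mem_filter.1 hx).2]
          rw [h3]
          refine Nat.mul_le_mul_right _ ?_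
          rcases Nat.lt_or_ge k j with h4 | h4
          · refine le_trans (Finset.card_le_card ?_) (hB j h4).le
            intro x hx
            rw [Finset.mem_filter, Finset.mem_filter] at hx
            exact Finset.mem_filter.2 ⟨hx.1.1, hx.2⟩
          · have h5 : (X0.filter (fun x => ¬ J x = k)).filter (fun x => J x = j) = ∅ := by
              refine Finset.filter_eq_empty_iff.2 fun x hx => ?_
              rw [Finset.mem_filter] at hx
              have h6 := (hJ x (hXY x hx.1)).1.1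
              have h7 := hx.2
              omega
            rw [h5]
            simp
        have h3 : ∑ j ∈ Finset.range (j₁ + 1), 1152 ^ 3 * 2 ^ j ≤ 1152 ^ 3 * 2 ^ (j₁ + 1) := by
          rw [← Finset.mul_sum]
          refine Nat.mul_le_mul_left _ ?_
          have h4 : ∀ n, ∑ j ∈ Finset.range n, 2 ^ j < 2 ^ n := by
            intro n
            induction n with
            | zero => simp
            | succ n ih =>
              rw [Finset.sum_range_succ, pow_succ]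
              omega
          exact (h4 _).le
        have h4 : ∑ x ∈ X0.filter (fun x => ¬ J x = k), 2 ^ J x ≤ 1152 ^ 3 * 2 ^ (j₁ + 1) := by
          rw [h1]
          exact le_trans (Finset.sum_le_sum h2) h3
        have h5 : ((∑ x ∈ X0.filter (fun x => ¬ J x = k), 2 ^ J x : ℕ) : ℝ) ≤
            ((1152 ^ 3 * 2 ^ (j₁ + 1) : ℕ) : ℝ) := by exact_mod_cast h4
        refine le_trans h5 ?_
        have h6 := hj1lt h
        have h7 : ((1152 ^ 3 * 2 ^ (j₁ + 1) : ℕ) : ℝ) = 1152 ^ 3 * 2 * (2 : ℝ) ^ j₁ := by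
          push_cast
          ring
        rw [h7]
        have h8 : 4000 * 1152 ^ 3 * η * R ≤ 1 / 1000 * R :=
          mul_le_mul_of_nonneg_right hη2 hRr.le
        have h9 : (1152 : ℝ) ^ 3 * 2 * (2 : ℝ) ^ j₁ ≤ 1152 ^ 3 * 2 * (2000 * η * R) :=
          mul_le_mul_of_nonneg_left h6.le (by positivity)
        linarith
    have h1 : ((R / 2 : ℕ) : ℝ) ≤ 21 * (((2 ^ k) ^ 4 : ℕ) : ℝ) + 21 * (1 / 1000 * R) := by
      have h2 : ((R / 2 : ℕ) : ℝ) ≤ ((21 * ∑ x ∈ X0, 2 ^ J x : ℕ) : ℝ) := by exact_mod_cast hcard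
      refine le_trans h2 ?_
      rw [hsplit, Nat.cast_mul, Nat.cast_add]
      have h3 : ((∑ x ∈ X0.filter (fun x => J x = k), 2 ^ J x : ℕ) : ℝ) ≤
          (((2 ^ k) ^ 4 : ℕ) : ℝ) := by exact_mod_cast hfirst
      push_cast at h3 hsecond ⊢
      linarith
    have h2 : 100 * (((2 ^ k) ^ 4 : ℕ) : ℝ) ≤ R := by exact_mod_cast hR
    have h3 : (R : ℝ) ≤ 2 * ((R / 2 : ℕ) : ℝ) + 1 := by
      have : R ≤ 2 * (R / 2) + 1 := by omega
      exact_mod_cast this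
    have h4 : (100 : ℝ) ≤ R := by exact_mod_cast hRpos
    linarith

end Pool.ISH
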